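import Pool.Agent.GEN.StmtsR

/-!
# Squad GEN, row GWA (helper80)
-/

set_option autoImplicit false

namespace Pool.Agent.GEN.H80

/-- Row GWA. -/
theorem gwa : GwaStmt := by
  classical
  intro ι _ _ B S hS
  set e := Fintype.equivFin ι with he
  set P : (ι → ℤ) → Polynomial ℤ := fun ν =>
    ∑ α, if α ∈ B then 0 else Polynomial.C (ν α) * Polynomial.X ^ ((e α : ℕ) + 1) with hP
  have hne : ∀ ν ∈ S, P ν ≠ 0 := by
    intro ν hν h0
    obtain ⟨α, hα, hνα⟩ := hS ν hν
    have h1 : (P ν).coeff ((e α : ℕ) + 1) = ν α := by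
      simp only [hP]
      rw [Polynomial.finset_sum_coeff, Finset.sum_eq_single α]
      · rw [if_neg hα, Polynomial.coeff_C_mul, Polynomial.coeff_X_pow, if_pos rfl, mul_one]
      · intro β _ hβ
        by_cases hB : β ∈ B
        · rw [if_pos hB, Polynomial.coeff_zero]
        · rw [if_neg hB, Polynomial.coeff_C_mul, Polynomial.coeff_X_pow, if_neg, mul_zero]
          intro h
          apply hβ
          apply e.injective
          exact Fin.ext (by omega)
      · intro h
        exact absurd (Finset.mem_univ α) h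
    rw [h0, Polynomial.coeff_zero] at h1
    exact hνα h1.symm
  have hQ : (∏ ν ∈ S, P ν) * Polynomial.X ≠ 0 :=
    mul_ne_zero (Finset.prod_ne_zero_iff.2 hne) Polynomial.X_ne_zero
  obtain ⟨T, hT⟩ : ∃ T : ℕ, ((∏ ν ∈ S, P ν) * Polynomial.X).eval (T : ℤ) ≠ 0 := by
    by_contra hcon
    push Not at hcon
    apply hQ
    refine Polynomial.eq_zero_of_infinite_isRoot _ ?_
    refine (Set.infinite_range_of_injective (f := fun n : ℕ => (n : ℤ)) Nat.cast_injective).mono ?_
    rintro _ ⟨n, rfl⟩
    exact hcon n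
  rw [Polynomial.eval_mul, Polynomial.eval_X, Polynomial.eval_prod] at hT
  have hT0 : T ≠ 0 := by
    rintro rfl
    exact hT (by simp)
  have hTS : ∀ ν ∈ S, (P ν).eval (T : ℤ) ≠ 0 :=
    Finset.prod_ne_zero_iff.1 (left_ne_zero_of_mul hT)
  refine ⟨fun α => if α ∈ B then 0 else T ^ ((e α : ℕ) + 1), fun α => ?_, fun ν hν => ?_⟩
  · by_cases hB : α ∈ B
    · simp [hB]
    · simp [hB, hT0]
  · have h1 := hTS ν hν
    intro h2
    apply h1
    rw [← h2]
    simp only [hP]
    rw [Polynomial.eval_finset_sum]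
    refine Finset.sum_congr rfl fun α _ => ?_
    by_cases hB : α ∈ B
    · simp [hB]
    · simp only [if_neg hB]
      rw [Polynomial.eval_mul, Polynomial.eval_C, Polynomial.eval_pow, Polynomial.eval_X]
      push_cast
      ring

end Pool.Agent.GEN.H80
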